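import Pool.Agent.Lib.MP_16285c_agX.Defs

/-!
# The box on a hypersurface: interface (section B of note 4936, helper60)
-/

set_option autoImplicit false

namespace Pool.Agent.Lib.MP_16285c_agX

open Pool.Agent.Lib.MP_16285c_ag Pool.Agent.Lib.MP_16285c_agN

/-- (B) Box on the hypersurface `P = 0` of dimension `n`. -/
def StmtBoxX : Prop :=
  ∀ (k : Type) [Field k] [IsAlgClosed k] [CharZero k] (n : ℕ) (P : Pl (n + 1) k) (f : RM k (n + 1)), Irreducible P →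
    MonZ P → InvX f P → ∀ B : Pl (n + 1) k, ¬ P ∣ B → ∀ p₀ : ℕ,
    ∃ (V : ValuationSubring k) (p : ℕ) (a : Fin (n + 1) → IsLocalRing.ResidueField V) (N : ℕ),
      p.Prime ∧ p₀ < p ∧ CharP (IsLocalRing.ResidueField V) p ∧ 1 ≤ N ∧
      (∃ r : ℕ, 1 ≤ r ∧ ∀ i, a i ^ (p ^ r) = a i) ∧
      (∀ t : Fin n → k, (∀ i : Fin n, Lies V (t i) (a i.succ)) →
        ∃ z₀ : k, Lies V z₀ (a 0) ∧ MvPolynomial.eval (Fin.cons z₀ t : Fin (n + 1) → k) P = 0) ∧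
      ∀ x₀ : Fin (n + 1) → k, (∀ i, Lies V (x₀ i) (a i)) → MvPolynomial.eval x₀ P = 0 →
        ∃ x : ℕ → Fin (n + 1) → k, x 0 = x₀ ∧ f.Orb x ∧
          (∀ m, MvPolynomial.eval (x m) P = 0 ∧ MvPolynomial.eval (x m) B ≠ 0) ∧
          Pool.Agent.ZDO.ClN N p x

end Pool.Agent.Lib.MP_16285c_agX
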