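import Pool.Agent.Lib.MP_16285c_agS.Top.Defs

/-!
# Dense orbits on varieties of every dimension: the model and the interfaces (note 4936)

MODEL. The variety of dimension `n` is the hypersurface `P = 0` in affine `(n+1)`-space, `P : Pl (n + 1) K` irreducible and monic in `z = X 0` (`MonZ P`);
the other coordinates are `X i.succ`, `i : Fin n`. The rational map is the restriction of an ambient rational map `f : RM K (n + 1)`.

Used from `Lib/MP_16285c_agS`: `xi`, `toF`, `vanK`, `InTI`, `StmtDegV` (general), and from `Lib/MP_16285c_agN` everything (general).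
-/

set_option autoImplicit false

namespace Pool.Agent.Lib.MP_16285c_agX

open Pool.Agent.Lib.MP_16285c_ag Pool.Agent.Lib.MP_16285c_agN

section

variable {K : Type} [Field K] {n : ℕ}

/-- `P` is monic in `z = X 0`. -/
def MonZ (P : Pl (n + 1) K) : Prop := (MvPolynomial.finSuccEquiv K n P).Monic

variable (K n) in
/-- The inclusion of `K[x₁, …, x_n]` into `K[z, x₁, …, x_n]`. -/
noncomputable def up : Pl n K →ₐ[K] Pl (n + 1) K := MvPolynomial.rename Fin.succ

/-- The point `(z₀, t)` over `t`. -/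
def pt {K' : Type} [Field K'] [Algebra K K'] (t : Fin n → K) (z₀ : K') : Fin (n + 1) → K' :=
  Fin.cons z₀ fun i => algebraMap K K' (t i)

/-- The hypersurface `P = 0` is preserved by `f`, and `f` is a local isomorphism at its general point. -/
def InvX (f : RM K (n + 1)) (P : Pl (n + 1) K) : Prop :=
  (∀ i, ¬ P ∣ f.den i) ∧ ¬ P ∣ jac f ∧
    ∃ E N : Pl (n + 1) K, ¬ P ∣ E ∧ fr (P * N) = fr E * f.comp P

/-- No invariant rational functions on the hypersurface `P = 0`. -/
def NoIX (f : RM K (n + 1)) (P : Pl (n + 1) K) : Prop :=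
  ∀ A B : Pl (n + 1) K, ¬ P ∣ B →
    (∃ E N : Pl (n + 1) K, ¬ P ∣ E ∧ fr (P * N) = fr E * (f.comp A * fr B - f.comp B * fr A)) →
    ∃ c : K, P ∣ A - MvPolynomial.C c * B

/-- No invariant rational functions on the hypersurface `P = 0`, for a homomorphism `σ` of the function field of the ambient space. -/
def NoRX (σ : RF (n + 1) K →ₐ[K] RF (n + 1) K) (P : Pl (n + 1) K) : Prop :=
  ∀ A B : Pl (n + 1) K, ¬ P ∣ B →
    (∃ E N : Pl (n + 1) K, ¬ P ∣ E ∧ fr (P * N) = fr E * (σ (fr A) * fr B - σ (fr B) * fr A)) →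
    ∃ c : K, P ∣ A - MvPolynomial.C c * B

end

/-- Sections E and F (interface with the assembly, helper24): a prime `𝔭` of dimension `n - 1` on the hypersurface, at which the residue degree is full, contains `Γ`. -/
def StmtCanX : Prop :=
  ∀ (n : ℕ), 2 ≤ n → ∀ (K : Type) [Field K] [CharZero K] (P : Pl (n + 1) K) [(Ideal.span {P}).IsPrime], MonZ P →
    ∀ (E : Type) [Field E] [Algebra (CR (Ideal.span {P})) E] [IsFractionRing (CR (Ideal.span {P})) E] [Algebra K E]
      [IsScalarTower K (CR (Ideal.span {P})) E] (σ : RF (n + 1) K →ₐ[K] RF (n + 1) K) (ρ : E →ₐ[K] E),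
      Rst σ (Ideal.span {P}) E ρ → (∀ h : E, ρ h = h → ∃ c : K, h = algebraMap K E c) →
      ∃ Γ : Pl n K, Γ ≠ 0 ∧ ∀ (𝔭 : Ideal (Pl (n + 1) K)) [𝔭.IsPrime], P ∈ 𝔭 → MvPolynomial.pderiv 0 P ∉ 𝔭 → rk 𝔭 + 1 = n →
        ∀ (L : Type) [Field L] [Algebra (CR 𝔭) L] [IsFractionRing (CR 𝔭) L] [Algebra K L] [IsScalarTower K (CR 𝔭) L]
          (ρb : L →ₐ[K] L), Rst σ 𝔭 L ρb → Module.finrank ρ.fieldRange E ≤ Module.finrank ρb.fieldRange L →
          up K n Γ ∈ 𝔭

end Pool.Agent.Lib.MP_16285c_agX
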